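import Pool.Agent.H.MP_ff7d48.G

set_option autoImplicit false
open Set

namespace Pool.Agent.Results.MP_828627_an.Main

def Plichko (X : Type) [NormedAddCommGroup X] [NormedSpace ℝ X] : Prop :=
  ∃ (S : Set X) (N : Submodule ℝ (X →L[ℝ] ℝ)), Dense (Submodule.span ℝ S : Set X) ∧
    (∃ c : ℝ, 0 < c ∧ ∀ x : X, c * ‖x‖ ≤ sSup {r | ∃ f ∈ N, ‖f‖ ≤ 1 ∧ |f x| = r}) ∧
    ∀ f ∈ N, {s ∈ S | f s ≠ 0}.Countable

theorem iff (X : Type) [NormedAddCommGroup X] [NormedSpace ℝ X] :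
    Plichko X ↔ H.MP_ff7d48.Pl X := by
  have z := (ContinuousLinearMap.opNorm_zero (𝕜 := ℝ) (𝕜₂ := ℝ) (E := X) (F := ℝ)
    (σ₁₂ := RingHom.id ℝ)).trans_le zero_le_one
  refine ⟨fun ⟨S, N, h1, ⟨c, c0, h2⟩, h3⟩ => ⟨S, h1, c / 2, half_pos c0, fun x => ?_⟩,
    fun ⟨S, h1, c, c0, h2⟩ => ⟨S,
      { carrier := {f | {s ∈ S | f s ≠ 0}.Countable}
        zero_mem' := by simp
        add_mem' := fun hf hg => (hf.union hg).mono fun m hm => by_contra fun k => hm.2 (by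
          simp only [mem_union, mem_ofPred_eq, hm.1, true_and, not_or, not_not] at k
          rw [add_apply, k.1, k.2, add_zero])
        smul_mem' := fun r f hf => hf.mono fun m hm => by
          exact ⟨hm.1, right_ne_zero_of_smul (a := r) hm.2⟩ },
      h1, ⟨c, c0, fun x => ?_⟩, fun f hf => hf⟩⟩
  · by_cases k : x = 0
    · exact ⟨0, by simp, z, by simp [k]⟩
    obtain ⟨_, ⟨ψ, p1, p2, rfl⟩, p3⟩ := exists_lt_of_lt_csSup (by exact ⟨_, 0, zero_mem _, z, rfl⟩)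
      ((mul_lt_mul_of_pos_right (half_lt_self c0) (norm_pos_iff.2 k)).trans_le (h2 x))
    exact ⟨ψ, h3 ψ p1, p2, p3.le⟩
  · obtain ⟨f, f1, f2, f3⟩ := h2 x
    refine f3.trans (le_csSup ⟨1 * ‖x‖, ?_⟩ (by exact ⟨f, f1, f2, rfl⟩))
    rintro _ ⟨g, -, g2, rfl⟩
    exact g.le_of_opNorm_le g2 x

theorem result : ∃ (X : Type) (_ : NormedAddCommGroup X) (_ : NormedSpace ℝ X)
    (_ : CompleteSpace X), Plichko ((X →L[ℝ] ℝ) →L[ℝ] ℝ) ∧ ¬Plichko X := by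
  obtain ⟨X, _, _, _, h1, h2⟩ := H.MP_ff7d48.exX
  exact ⟨X, _, _, ‹_›, (iff _).2 h1, fun h => h2 ((iff _).1 h).scp⟩

end Pool.Agent.Results.MP_828627_an.Main
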